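import Mathlib

/-!
# Metric spaces are not determined by their squares (Euclidean product metric)

The subspaces `√p · ℚ` of the real line, `p` a prime with `p ≡ 1 mod 4`, are pairwise not
isometric, but their squares with the Euclidean product metric are all isometric: if
`p = a² + b²`, the rotation with matrix `(1/√p) (a, b; -b, a)` maps `(√p · ℚ)²` onto `ℚ²`.
-/

set_option autoImplicit false

namespace Pool.Agent.Results.MP_1231ed_gt.SquareRootsNotUnique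

/-- The subset `c · ℚ` of the real line. -/
def S (c : ℝ) : Set ℝ := Set.range fun q : ℚ => c * (q : ℝ)

lemma mem_S_one {a b c : ℝ} {a' b' : ℚ} (ha : a = a') (hb : b = b') (hc : c ≠ 0) {x y : ℝ}
    (hx : x ∈ S c) (hy : y ∈ S c) : (a * x + b * y) / c ∈ S 1 := by
  obtain ⟨q, rfl⟩ := hx
  obtain ⟨r, rfl⟩ := hy
  refine ⟨a' * q + b' * r, ?_⟩
  subst ha hb
  field_simp
  push_cast
  ring

lemma mem_S {a b c : ℝ} {a' b' : ℚ} (ha : a = a') (hb : b = b') (hc : c ≠ 0)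
    (h : a ^ 2 + b ^ 2 = c ^ 2) {x y : ℝ}
    (hx : x ∈ S 1) (hy : y ∈ S 1) : (a * x + b * y) / c ∈ S c := by
  obtain ⟨q, rfl⟩ := hx
  obtain ⟨r, rfl⟩ := hy
  refine ⟨(a' * q + b' * r) / (a' ^ 2 + b' ^ 2), ?_⟩
  subst ha hb
  push_cast
  rw [h]
  field_simp

/-- The square of `c · ℚ` is isometric to the square of `ℚ` if `c² = a² + b²` with `a, b`
rational. -/
theorem square_equiv {c : ℝ} {a b : ℚ} (hc : c ≠ 0) (h : (a : ℝ) ^ 2 + (b : ℝ) ^ 2 = c ^ 2) :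
    ∃ φ : (S c × S c) ≃ (S 1 × S 1), ∀ x y : S c × S c,
      dist (φ x).1 (φ y).1 ^ 2 + dist (φ x).2 (φ y).2 ^ 2 =
        dist x.1 y.1 ^ 2 + dist x.2 y.2 ^ 2 := by
  have hb' : (-(b : ℝ)) = ((-b : ℚ) : ℝ) := by push_cast; rfl
  have h' : (a : ℝ) ^ 2 + (-(b : ℝ)) ^ 2 = c ^ 2 := by rw [neg_sq, h]
  have h'' : (b : ℝ) ^ 2 + (a : ℝ) ^ 2 = c ^ 2 := by rw [add_comm, h]
  let F : (S c × S c) → (S 1 × S 1) := fun z =>
    (⟨((a : ℝ) * z.1.1 + (b : ℝ) * z.2.1) / c, mem_S_one rfl rfl hc z.1.2 z.2.2⟩,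
      ⟨((-(b : ℝ)) * z.1.1 + (a : ℝ) * z.2.1) / c, mem_S_one hb' rfl hc z.1.2 z.2.2⟩)
  let G : (S 1 × S 1) → (S c × S c) := fun z =>
    (⟨((a : ℝ) * z.1.1 + (-(b : ℝ)) * z.2.1) / c, mem_S rfl hb' hc h' z.1.2 z.2.2⟩,
      ⟨((b : ℝ) * z.1.1 + (a : ℝ) * z.2.1) / c, mem_S rfl rfl hc h'' z.1.2 z.2.2⟩)
  refine ⟨⟨F, G, ?_, ?_⟩, ?_⟩
  · intro z
    have e1 : (G (F z)).1.1 = z.1.1 := by
      show ((a : ℝ) * (((a : ℝ) * z.1.1 + (b : ℝ) * z.2.1) / c) +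
        (-(b : ℝ)) * (((-(b : ℝ)) * z.1.1 + (a : ℝ) * z.2.1) / c)) / c = z.1.1
      field_simp
      rw [← h]; ring
    have e2 : (G (F z)).2.1 = z.2.1 := by
      show ((b : ℝ) * (((a : ℝ) * z.1.1 + (b : ℝ) * z.2.1) / c) +
        (a : ℝ) * (((-(b : ℝ)) * z.1.1 + (a : ℝ) * z.2.1) / c)) / c = z.2.1
      field_simp
      rw [← h]; ring
    exact Prod.ext (Subtype.ext e1) (Subtype.ext e2)
  · intro z
    have e1 : (F (G z)).1.1 = z.1.1 := by
      show ((a : ℝ) * (((a : ℝ) * z.1.1 + (-(b : ℝ)) * z.2.1) / c) +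
        (b : ℝ) * (((b : ℝ) * z.1.1 + (a : ℝ) * z.2.1) / c)) / c = z.1.1
      field_simp
      rw [← h]; ring
    have e2 : (F (G z)).2.1 = z.2.1 := by
      show ((-(b : ℝ)) * (((a : ℝ) * z.1.1 + (-(b : ℝ)) * z.2.1) / c) +
        (a : ℝ) * (((b : ℝ) * z.1.1 + (a : ℝ) * z.2.1) / c)) / c = z.2.1
      field_simp
      rw [← h]; ring
    exact Prod.ext (Subtype.ext e1) (Subtype.ext e2)
  · intro z w
    simp only [Subtype.dist_eq, Real.dist_eq, sq_abs]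
    show (((a : ℝ) * z.1.1 + (b : ℝ) * z.2.1) / c -
          ((a : ℝ) * w.1.1 + (b : ℝ) * w.2.1) / c) ^ 2 +
        (((-(b : ℝ)) * z.1.1 + (a : ℝ) * z.2.1) / c -
          ((-(b : ℝ)) * w.1.1 + (a : ℝ) * w.2.1) / c) ^ 2 = _
    field_simp
    rw [← h]; ring

/-- If `c · ℚ` and `d · ℚ` are isometric, then `c / d` is rational. -/
theorem ratio_of_isometric {c d : ℝ} (e : S c ≃ᵢ S d) : ∃ q : ℚ, |c| = |d| * q := by
  have h0 : (0 : ℝ) ∈ S c := ⟨0, by simp⟩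
  have h1 : c ∈ S c := ⟨1, by simp⟩
  obtain ⟨q, hq⟩ := (e ⟨0, h0⟩).2
  obtain ⟨r, hr⟩ := (e ⟨c, h1⟩).2
  have h := e.isometry.dist_eq ⟨0, h0⟩ ⟨c, h1⟩
  rw [Subtype.dist_eq, Subtype.dist_eq, Real.dist_eq, Real.dist_eq, ← hq, ← hr] at h
  refine ⟨|q - r|, ?_⟩
  simp only [zero_sub, abs_neg] at h
  rw [← h, ← mul_sub, abs_mul]
  push_cast
  rfl

/-- Distinct primes: `√p · ℚ` and `√q · ℚ` are not isometric. -/
theorem not_isometric {p q : ℕ} (hp : p.Prime) (hq : q.Prime) (hpq : p ≠ q) :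
    ¬ Nonempty (S (√p) ≃ᵢ S (√q)) := by
  rintro ⟨e⟩
  obtain ⟨r, hr⟩ := ratio_of_isometric e
  have hp0 : (0 : ℝ) ≤ p := Nat.cast_nonneg _
  have hq0 : (0 : ℝ) ≤ q := Nat.cast_nonneg _
  rw [abs_of_nonneg (Real.sqrt_nonneg _), abs_of_nonneg (Real.sqrt_nonneg _)] at hr
  have h1 : (p : ℝ) = q * (r : ℝ) ^ 2 := by
    have : (√(p : ℝ)) ^ 2 = (√(q : ℝ) * r) ^ 2 := by rw [hr]
    rwa [mul_pow, Real.sq_sqrt hp0, Real.sq_sqrt hq0] at this
  have h2 : ((p * q : ℕ) : ℚ) = (q * r) * (q * r) := by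
    have : ((p * q : ℕ) : ℝ) = (q * (r : ℝ)) * (q * r) := by
      push_cast; rw [h1]; ring
    exact_mod_cast this
  have h3 : IsSquare ((p * q : ℕ) : ℚ) := ⟨_, h2⟩
  rw [Rat.isSquare_natCast_iff] at h3
  obtain ⟨k, hk⟩ := h3
  have hpk : p ∣ k := by
    have : p ∣ k * k := hk ▸ dvd_mul_right p q
    rcases (hp.dvd_mul).1 this with h | h <;> exact h
  obtain ⟨m, rfl⟩ := hpk
  have h4 : q = p * (m * m) := by
    have : p * q = p * (p * (m * m)) := by rw [hk]; ring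
    exact Nat.eq_of_mul_eq_mul_left hp.pos this
  have h5 : p ∣ q := h4 ▸ dvd_mul_right _ _
  exact hpq ((Nat.prime_dvd_prime_iff_eq hp hq).1 h5)

/-- Ulam's question on square roots of metric spaces has a negative answer: there is an infinite
sequence of countable subspaces of the real line, pairwise not isometric, such that their squares,
with the Euclidean product metric `√(d(a₁,a₃)² + d(a₂,a₄)²)`, are all isometric to each other. -/
theorem result : ∃ A : ℕ → Set ℝ, (∀ n, (A n).Countable) ∧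
    (∀ m n, ∃ φ : (A m × A m) ≃ (A n × A n), ∀ x y : A m × A m,
      √(dist (φ x).1 (φ y).1 ^ 2 + dist (φ x).2 (φ y).2 ^ 2) =
        √(dist x.1 y.1 ^ 2 + dist x.2 y.2 ^ 2)) ∧
    (∀ m n, m ≠ n → ¬ Nonempty (A m ≃ᵢ A n)) := by
  have hinf := Nat.infinite_setOfPred_prime_modEq_one (k := 4) (by norm_num)
  let P : ℕ → ℕ := fun n => Nat.nth (fun p => p.Prime ∧ p ≡ 1 [MOD 4]) n
  have hP : ∀ n, (P n).Prime ∧ P n ≡ 1 [MOD 4] := fun n => Nat.nth_mem_of_infinite hinf n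
  have hinj : Function.Injective P := Nat.nth_injective hinf
  refine ⟨fun n => S (√(P n)), fun n => Set.countable_range _, fun m n => ?_, fun m n hmn => ?_⟩
  · have key : ∀ n, ∃ φ : (S (√(P n)) × S (√(P n))) ≃ (S 1 × S 1),
        ∀ x y : S (√(P n)) × S (√(P n)),
          dist (φ x).1 (φ y).1 ^ 2 + dist (φ x).2 (φ y).2 ^ 2 =
            dist x.1 y.1 ^ 2 + dist x.2 y.2 ^ 2 := by
      intro n
      have : Fact (P n).Prime := ⟨(hP n).1⟩
      have h4 : P n % 4 ≠ 3 := by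
        have := (hP n).2
        unfold Nat.ModEq at this
        omega
      obtain ⟨a, b, hab⟩ := Nat.Prime.sq_add_sq h4
      have hpos : (0 : ℝ) < P n := by exact_mod_cast (hP n).1.pos
      refine square_equiv (a := a) (b := b) (Real.sqrt_pos.2 hpos).ne' ?_
      rw [Real.sq_sqrt hpos.le]
      exact_mod_cast hab
    obtain ⟨e1, h1⟩ := key m
    obtain ⟨e2, h2⟩ := key n
    refine ⟨e1.trans e2.symm, fun x y => ?_⟩
    congr 1
    rw [← h1 x y]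
    have := h2 (e2.symm (e1 x)) (e2.symm (e1 y))
    rw [Equiv.apply_symm_apply, Equiv.apply_symm_apply] at this
    exact this.symm
  · exact not_isometric (hP m).1 (hP n).1 (fun h => hmn (hinj h))

end Pool.Agent.Results.MP_1231ed_gt.SquareRootsNotUnique
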